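import Pool.Agent.Helper22_LLG.Stmt

/-!
# LLG, module NUMM: numbers of MACH
-/

set_option autoImplicit false
set_option exponentiation.threshold 100

namespace Pool.Agent.LLG.H70

open Pool.Agent.LAG Pool.Agent.LLG

theorem two_k_three (k : ℕ) : 2 * k + 3 ≤ 2 ^ (Nat.log 2 k + 3) := by
  have h : k < 2 ^ (Nat.log 2 k + 1) := Nat.lt_pow_succ_log_self (by norm_num) k
  have h2 : 2 ^ (Nat.log 2 k + 3) = 4 * 2 ^ (Nat.log 2 k + 1) := by
    rw [show Nat.log 2 k + 3 = (Nat.log 2 k + 1) + 2 from rfl, pow_add]; ring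
  have h3 : 1 ≤ 2 ^ (Nat.log 2 k + 1) := Nat.one_le_two_pow
  rw [h2]
  clear h2
  generalize 2 ^ (Nat.log 2 k + 1) = y at h h3
  omega

/-- comparison of powers of two and of three -/
theorem three_pow (a b c x : ℕ) (h : 2 ^ a ≤ 3 ^ b) : 2 ^ (a * (c * x)) ≤ 3 ^ (b * (c * x)) := by
  generalize c * x = m
  rw [pow_mul, pow_mul]
  exact Nat.pow_le_pow_left h _

theorem big_pow_gen (k y l N e : ℕ) (hl : 2 * k + 3 ≤ 2 ^ l) (hy : y ≤ (2 * k + 3) ^ e)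
    (a b c x : ℕ) (h : 2 ^ a ≤ 3 ^ b) (z f : ℕ) (h1 : z + l * e * f ≤ a * (c * x))
    (h2 : b * (c * x) ≤ N) : 2 ^ z * y ^ f ≤ 3 ^ N := by
  have h3 : y ^ f ≤ 2 ^ (l * e * f) := by
    calc y ^ f ≤ ((2 * k + 3) ^ e) ^ f := Nat.pow_le_pow_left hy _
      _ ≤ ((2 ^ l) ^ e) ^ f := Nat.pow_le_pow_left (Nat.pow_le_pow_left hl _) _
      _ = 2 ^ (l * e * f) := by rw [← pow_mul, ← pow_mul, mul_assoc]
  calc 2 ^ z * y ^ f ≤ 2 ^ z * 2 ^ (l * e * f) := Nat.mul_le_mul_left _ h3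
    _ = 2 ^ (z + l * e * f) := by rw [pow_add]
    _ ≤ 2 ^ (a * (c * x)) := Nat.pow_le_pow_right (by norm_num) h1
    _ ≤ 3 ^ (b * (c * x)) := three_pow a b c x h
    _ ≤ 3 ^ N := Nat.pow_le_pow_right (by norm_num) h2

theorem D_le_gen (k n : ℕ) : (2 * k + 3) ^ n + 2 ≤ (2 * k + 3) ^ (n + 1) := by
  rw [pow_succ]
  have h1 : 1 ≤ (2 * k + 3) ^ n := Nat.one_le_pow _ _ (by omega)
  generalize (2 * k + 3) ^ n = y at h1
  nlinarith

theorem le_div_gen (M p n k : ℕ) (hp : 2 ≤ p) (hM : M ≤ 2 ^ n) (m : ℕ) (hn : n + 1 ≤ m)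
    (h : p ^ m ≤ k) : M * p ≤ k := by
  calc M * p ≤ 2 ^ n * p := Nat.mul_le_mul_right _ hM
    _ ≤ p ^ n * p := Nat.mul_le_mul_right _ (Nat.pow_le_pow_left hp _)
    _ = p ^ (n + 1) := (pow_succ _ _).symm
    _ ≤ p ^ m := Nat.pow_le_pow_right (by omega) hn
    _ ≤ k := h

theorem le_pT {K k : ℕ} (hK : 2 ≤ pL K) (h : pL K ^ 5000 ≤ k) : 1 ≤ pT K k := by
  unfold pT
  rw [Nat.one_le_div_iff (Nat.mul_pos (by norm_num) (by omega))]
  exact le_div_gen (10 ^ 6) (pL K) 20 k hK (by norm_num) 5000 (by norm_num) h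

/-- the numbers of NUMM with abstract powers -/
theorem fin_gen (k T n lg y : ℕ) (hT : 1 ≤ T) (hTk : T ≤ k) (hlg : lg ≤ k)
    (hn : n = 40000 * (lg + 1)) (hy : 5 ≤ y) (c d : ℕ) (hc : c = 2 ^ 12) (hd : d = 2 ^ 45) :
    T * y ≤ (2 * k + 3) * (2 * k + 3) * ((2 * k + 3) * y) + 2 ∧
    8 * n + 20000 ≤ d * ((2 * k + 3) * (2 * k + 3) * ((2 * k + 3) * y) + 2) ∧
    8 * (128 * T * y) + 8 * n + 20000 ≤
      c * ((2 * k + 3) * (2 * k + 3) * ((2 * k + 3) * y) + 2) := by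
  have e1 : T * y ≤ (2 * k + 3) * y := Nat.mul_le_mul_right _ (by omega)
  have e2 : 10 * (k + 1) ≤ (2 * k + 3) * y := by
    calc 10 * (k + 1) ≤ (2 * k + 3) * 5 := by omega
      _ ≤ _ := Nat.mul_le_mul_left _ hy
  have e3 : 25 * ((2 * k + 3) * y) ≤ (2 * k + 3) * (2 * k + 3) * ((2 * k + 3) * y) := by
    apply Nat.mul_le_mul_right
    nlinarith
  have e4 : 128 * T * y = 128 * (T * y) := by rw [mul_assoc]
  rw [e4]
  clear e4
  generalize (2 * k + 3) * (2 * k + 3) * ((2 * k + 3) * y) = w at e3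
  generalize (2 * k + 3) * y = v at e1 e2 e3
  generalize T * y = z at e1
  have hc' : c = 4096 := by rw [hc]; norm_num
  have hd' : 4096 ≤ d := by rw [hd]; norm_num
  clear hc hd
  subst hc'
  have e5 : 4096 * (w + 2) ≤ d * (w + 2) := Nat.mul_le_mul_right _ hd'
  generalize d * (w + 2) = u at e5
  refine ⟨?_, ?_, ?_⟩ <;> omega

theorem pow_split (x n : ℕ) : x ^ (n + 3) = x * x * (x * x ^ n) := by
  rw [← pow_succ', mul_assoc, ← pow_succ', ← pow_succ']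

theorem numm (h : NumiStmt) : NummStmt := by
  refine ⟨2, fun K k hK hk hkK => ?_⟩
  have hL : 2 ≤ pL K := by
    unfold pL
    have : 1 ≤ Nat.log 2 K := Nat.log_pos (by norm_num) hK
    omega
  have hT := le_pT hL hk
  have hTk : pT K k ≤ k := Nat.div_le_self _ _
  have hlog : Nat.log 2 k ≤ k := Nat.log_le_self 2 k
  have hX1 : 5 ≤ (2 * k + 3) ^ 2000 :=
    le_trans (show 5 ≤ 2 * k + 3 by omega) (Nat.le_self_pow (by norm_num) _)
  have hfin := fin_gen k (pT K k) (pn k) (Nat.log 2 k) ((2 * k + 3) ^ 2000) hT hTk hlog rfl hX1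
    (2 ^ 12) (2 ^ 45) rfl rfl
  have hsp := pow_split (2 * k + 3) 2000
  have hsp' : (2 * k + 3) * (2 * k + 3) * ((2 * k + 3) * (2 * k + 3) ^ 2000) =
      (2 * k + 3) ^ 2003 := hsp.symm
  rw [hsp'] at hfin
  have hself : (2 * k + 3) ^ 2003 + 2 ≤ ((2 * k + 3) ^ 2003 + 2) ^ 21 :=
    Nat.le_self_pow (by norm_num) _
  have hself24 : (2 * k + 3) ^ 2003 + 2 ≤ ((2 * k + 3) ^ 2003 + 2) ^ 24 :=
    Nat.le_self_pow (by norm_num) _
  have hD : (2 * k + 3) ^ 2003 + 2 ≤ (2 * k + 3) ^ 2004 := D_le_gen k 2003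
  have hbig : 2 ^ 273 * ((2 * k + 3) ^ 2003 + 2) ^ 122 ≤ 3 ^ (pH k) := by
    refine big_pow_gen k _ (Nat.log 2 k + 3) (pH k) 2004 (two_k_three k) hD 11 7 22857
      (Nat.log 2 k + 10) (by norm_num) 273 122 ?_ ?_
    · clear hD hself hself24 hsp hsp' hfin hX1
      omega
    · clear hD hself hself24 hsp hsp' hfin hX1
      unfold pH
      omega
  refine ⟨?_, hT, ?_, ?_, ?_, le_of_eq rfl, ?_⟩
  · exact h ((2 * k + 3) ^ 2003) (pH k) (pT K k * (2 * k + 3) ^ 2000) hbig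
      (hfin.1.trans hself)
  · unfold pn
    generalize Nat.log 2 k = l
    clear hD hself hself24 hsp hsp' hfin hX1 hbig
    omega
  · rw [← mul_assoc]
    exact le_of_eq rfl
  · exact hfin.2.1.trans (Nat.mul_le_mul_left _ hself24)
  · exact hfin.2.2

end Pool.Agent.LLG.H70
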