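import Pool.Agent.Helper70_LLG.Numm

/-!
# LLG, module NUMS: all rounds
-/

set_option autoImplicit false
set_option exponentiation.threshold 100

namespace Pool.Agent.LLG.H70

open Pool.Agent.LAG Pool.Agent.LLG

theorem two_three_gen (y m f z c N : ℕ) (hy : y ≤ 2 ^ m) (h1 : z + m * f ≤ 3 * c)
    (h2 : 2 * c ≤ N) : 2 ^ z * y ^ f ≤ 3 ^ N := by
  have h3 : y ^ f ≤ 2 ^ (m * f) := by
    calc y ^ f ≤ (2 ^ m) ^ f := Nat.pow_le_pow_left hy _
      _ = 2 ^ (m * f) := by rw [← pow_mul]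
  calc 2 ^ z * y ^ f ≤ 2 ^ z * 2 ^ (m * f) := Nat.mul_le_mul_left _ h3
    _ = 2 ^ (z + m * f) := by rw [pow_add]
    _ ≤ 2 ^ (3 * c) := Nat.pow_le_pow_right (by norm_num) h1
    _ = (2 ^ 3) ^ c := by rw [pow_mul]
    _ ≤ (3 ^ 2) ^ c := Nat.pow_le_pow_left (by norm_num) _
    _ = 3 ^ (2 * c) := by rw [← pow_mul]
    _ ≤ 3 ^ N := Nat.pow_le_pow_right (by norm_num) h2

theorem kf_bound (p n : ℕ) : 2 * p ^ n + 4 ≤ 2 ^ ((Nat.log 2 p + 1) * n + 3) := by
  have h : p ≤ 2 ^ (Nat.log 2 p + 1) := (Nat.lt_pow_succ_log_self (by norm_num) p).le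
  have h1 : p ^ n ≤ 2 ^ ((Nat.log 2 p + 1) * n) := by
    rw [pow_mul]
    exact Nat.pow_le_pow_left h _
  have h2 : 1 ≤ 2 ^ ((Nat.log 2 p + 1) * n) := Nat.one_le_two_pow
  rw [pow_add]
  generalize p ^ n = u at h1
  generalize 2 ^ ((Nat.log 2 p + 1) * n) = v at h1 h2
  norm_num
  omega

theorem pL_log (K : ℕ) (hK : 2 ≤ K) : Nat.log 2 (pL K) ≤ Nat.log 2 (Nat.log 2 K) + 1 := by
  unfold pL
  have h1 : 1 ≤ Nat.log 2 K := Nat.log_pos (by norm_num) hK
  calc Nat.log 2 (Nat.log 2 K + 1) ≤ Nat.log 2 (Nat.log 2 K * 2) :=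
        Nat.log_mono_right (by omega)
    _ = Nat.log 2 (Nat.log 2 K) + 1 := Nat.log_mul_base (by norm_num) (by omega)

theorem log_le_pL (K : ℕ) (hK : 1 ≤ K) : Real.log K ≤ pL K := by
  have h : (K : ℝ) ≤ 2 ^ (pL K) := by
    have : K ≤ 2 ^ (pL K) := (Nat.lt_pow_succ_log_self (by norm_num) K).le
    exact_mod_cast this
  have hK0 : (0 : ℝ) < K := by exact_mod_cast hK
  calc Real.log K ≤ Real.log (2 ^ (pL K)) := Real.log_le_log hK0 h
    _ = pL K * Real.log 2 := by rw [Real.log_pow]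
    _ ≤ pL K * 1 := by
      apply mul_le_mul_of_nonneg_left _ (Nat.cast_nonneg _)
      have := Real.log_two_lt_d9
      linarith
    _ = pL K := mul_one _

/-- the potential -/
noncomputable def rr (p : ℕ) (k : ℕ) : ℕ := ⌊4000000 * (p : ℝ) * Real.log k⌋₊

theorem rr_step (p k T : ℕ) (hp : 1 ≤ p) (hT : T = k / (1000000 * p)) (h2 : 2 * T < k)
    (hk : 2000000 * p ≤ k) : rr p (k - 2 * T) + 3 ≤ rr p k := by
  have hp0 : (0 : ℝ) < p := by exact_mod_cast hp
  have hk0 : (0 : ℝ) < k := by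
    have : 0 < k := by omega
    exact_mod_cast this
  have hkR : 2000000 * (p : ℝ) ≤ k := by exact_mod_cast hk
  have h2R : 2 * (T : ℝ) < k := by exact_mod_cast h2
  have hTl : (k : ℝ) / (2000000 * p) ≤ T := by
    have h3 : k < 1000000 * p * (T + 1) := by
      rw [hT]
      exact Nat.lt_mul_div_succ k (by positivity)
    have h4 : (k : ℝ) < 1000000 * p * (T + 1) := by exact_mod_cast h3
    rw [div_le_iff₀ (by positivity)]
    nlinarith
  have hcast : ((k - 2 * T : ℕ) : ℝ) = (k : ℝ) - 2 * T := by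
    rw [Nat.cast_sub h2.le]; push_cast; rfl
  have hlog : Real.log ((k - 2 * T : ℕ) : ℝ) + 2 * T / k ≤ Real.log k := by
    rw [hcast]
    have e1 : (k : ℝ) - 2 * T = k * (1 - 2 * T / k) := by field_simp
    have e2 : 0 < 1 - 2 * (T : ℝ) / k := by
      rw [sub_pos, div_lt_one hk0]; exact h2R
    rw [e1, Real.log_mul hk0.ne' e2.ne']
    have e3 := Real.log_le_sub_one_of_pos e2
    linarith
  have h5 : 1 / (1000000 * (p : ℝ)) ≤ 2 * T / k := by
    rw [div_le_div_iff₀ (by positivity) hk0]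
    rw [div_le_iff₀ (by positivity)] at hTl
    nlinarith
  have h6 : 4000000 * (p : ℝ) * Real.log ((k - 2 * T : ℕ) : ℝ) + 4 ≤
      4000000 * (p : ℝ) * Real.log k := by
    have e4 : 4000000 * (p : ℝ) * (1 / (1000000 * (p : ℝ))) = 4 := by
      field_simp; norm_num
    have e5 : 4000000 * (p : ℝ) * (Real.log ((k - 2 * T : ℕ) : ℝ) + 1 / (1000000 * (p : ℝ))) ≤
        4000000 * (p : ℝ) * Real.log k := by
      apply mul_le_mul_of_nonneg_left _ (by positivity)
      linarith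
    rw [mul_add, e4] at e5
    exact e5
  unfold rr
  apply Nat.le_floor
  have h7 : 0 ≤ 4000000 * (p : ℝ) * Real.log ((k - 2 * T : ℕ) : ℝ) := by
    have : 0 ≤ Real.log ((k - 2 * T : ℕ) : ℝ) := Real.log_natCast_nonneg _
    positivity
  have h8 := Nat.floor_le h7
  rw [Nat.cast_add]
  push_cast at h8 ⊢
  linarith

theorem rr_top (p K : ℕ) (hp : 2001 ≤ p) (h : Real.log K ≤ p) : rr p K + 1 ≤ p ^ 4 := by
  have hpR : (2001 : ℝ) ≤ p := by exact_mod_cast hp
  have h1 : rr p K ≤ 4000000 * p * p := by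
    unfold rr
    have e1 : 4000000 * (p : ℝ) * Real.log K ≤ ((4000000 * p * p : ℕ) : ℝ) := by
      push_cast
      apply mul_le_mul_of_nonneg_left h (by positivity)
    exact Nat.floor_le_of_le e1
  have h2 : 4000000 * p * p + 1 ≤ p ^ 4 := by
    have e2 : 4000001 ≤ p * p := by nlinarith
    have e3 : p ^ 4 = (p * p) * (p * p) := by ring
    rw [e3, show 4000000 * p * p = 4000000 * (p * p) by ring]
    generalize p * p = u at e2
    nlinarith
  omega

theorem num1 (x y : ℕ) (h : y ≤ x + 1) : 2 * (10 ^ 6 * (y + 30)) ≤ 100000000 * (x + 1) := by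
  have e : (10 : ℕ) ^ 6 = 1000000 := by norm_num
  rw [e]
  omega

theorem num2 (y : ℕ) : 273 + ((y + 1) * 5000 + 3) * 122 ≤ 3 * (500000 * (y + 30)) := by
  omega

theorem num3 (y : ℕ) : 2 * (500000 * (y + 30)) ≤ 10 ^ 6 * (y + 30) := by
  have e : (10 : ℕ) ^ 6 = 1000000 := by norm_num
  rw [e]
  omega

theorem num4 (y : ℕ) : 2050 ≤ 10 ^ 6 * (y + 30) := by
  have e : (10 : ℕ) ^ 6 = 1000000 := by norm_num
  rw [e]
  omega

theorem pT_eq (K k : ℕ) : pT K k = k / (1000000 * pL K) := by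
  have e : (10 : ℕ) ^ 6 = 1000000 := by norm_num
  unfold pT
  rw [e]

theorem nums (h1 : NumlStmt) (h2 : NumeStmt) (h3 : NummStmt) : NumsStmt := by
  obtain ⟨K1, h1⟩ := h1
  obtain ⟨K2, h2⟩ := h2
  obtain ⟨K3, h3⟩ := h3
  refine ⟨100000000, max (max K1 K2) (max K3 (2 ^ 2000)), fun K hK => ?_⟩
  have hK1 : K1 ≤ K := le_trans (le_trans (le_max_left _ _) (le_max_left _ _)) hK
  have hK2 : K2 ≤ K := le_trans (le_trans (le_max_right _ _) (le_max_left _ _)) hK
  have hK3 : K3 ≤ K := le_trans (le_trans (le_max_left _ _) (le_max_right _ _)) hK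
  have hK4 : 2 ^ 2000 ≤ K := le_trans (le_trans (le_max_right _ _) (le_max_right _ _)) hK
  clear hK
  have hp : 2001 ≤ pL K := by
    have e : 2000 ≤ Nat.log 2 K := by
      have hK0 : K ≠ 0 := by
        rintro rfl
        have : 1 ≤ 2 ^ 2000 := Nat.one_le_two_pow
        exact absurd (le_trans this hK4) (by norm_num)
      exact (Nat.le_log_iff_pow_le (by norm_num) hK0).2 hK4
    unfold pL
    omega
  have hK5 : 2 ≤ K := le_trans (Nat.le_self_pow (n := 2000) (by norm_num) 2) hK4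
  clear hK4
  have hpl := pL_log K hK5
  have hh : 2 * ph K ≤ 100000000 * (Nat.log 2 (Nat.log 2 K) + 1) := num1 _ _ hpl
  refine ⟨pL K ^ 5000, ph K, pL K ^ 4, pT K, rr (pL K), Nat.one_le_pow _ _ (by omega), hh, ?_,
    rr_top _ _ hp (log_le_pL K (by omega)), ?_⟩
  · have e := kf_bound (pL K) 5000
    exact two_three_gen _ _ 122 273 (500000 * (Nat.log 2 (pL K) + 30)) (ph K) e (num2 _) (num3 _)
  · intro k hk hkK
    have hL := h1 K k 0 hK1 hk.le hkK (Nat.zero_le _)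
    constructor
    · refine rr_step (pL K) k (pT K k) (by omega) (pT_eq K k) hL.1 ?_
      have e := le_div_gen 2000000 (pL K) 21 k (by omega) (by norm_num) 5000 (by norm_num) hk.le
      exact e
    · intro q hq
      have hq4 : q ≤ pL K ^ 4 := le_trans (Nat.le_add_right _ _) hq
      have hL := h1 K k q hK1 hk.le hkK hq4
      have hE := h2 K k q hK2 hk.le hkK hq4
      have hM := h3 K k hK3 hk.le hkK
      exact ⟨hL.1, _, _, _, ph K, _, _, _, _, _, _, _, _, hh, num4 _, hL.2.2, hE, hL.2.1, hM⟩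

end Pool.Agent.LLG.H70
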